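import Mathlib
import Pool.Agent.U762.RP.Stm

set_option autoImplicit false

/-!
# Project RP, package PRB: from the random environment to the annealed chain
-/

namespace Pool.Agent.U511.RP

open Finset MeasureTheory Filter Pool.Agent.U762.RP

/-- the operator `Q` preserves nonnegative functions -/
theorem Q_nonneg (d : ℕ) (m r : ℤ → ℤ) (w : ℤ → ℝ) (hw : ∀ u, 0 ≤ w u) (B : ℕ) (M : ℝ) (F : ℤ → ℝ)
    (hF : ∀ x, 0 ≤ F x) (x : ℤ) : 0 ≤ Q d m r w B M F x := by
  unfold Q
  split_ifs
  · exact le_refl _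
  · exact Finset.sum_nonneg fun u _ => mul_nonneg (hw u) (hF _)

theorem iter_nonneg (d : ℕ) (m r : ℤ → ℤ) (w : ℤ → ℝ) (hw : ∀ u, 0 ≤ w u) (B : ℕ) (M : ℝ) (L : ℕ)
    (x : ℤ) : 0 ≤ (Q d m r w B M)^[L] (ind M) x := by
  induction L generalizing x with
  | zero =>
    simp only [Function.iterate_zero, id_eq, ind]
    split_ifs <;> norm_num
  | succ L ih =>
    rw [Function.iterate_succ_apply']
    exact Q_nonneg d m r w hw B M _ ih x

theorem main (d : ℕ) (m r : ℤ → ℤ) (μ : Measure ℤ) [IsProbabilityMeasure μ] (B : ℕ)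
    (hB : μ {u : ℤ | (B : ℤ) < |u|} = 0) (M : ℝ) (L : ℕ) :
    ∀ (A : Finset ℤ) (v : ℤ → ℤ) (x : ℤ),
      (Measure.infinitePi fun _ : ℤ => μ)
        {ω | (∀ a ∈ A, ω a = v a) ∧ (∀ i : ℕ, i ≤ L → (stp d m r ω)^[i] x ∉ A) ∧ Long d m r M L x ω} ≤
      (∏ a ∈ A, μ {v a}) *
        ENNReal.ofReal ((Q d m r (fun u => μ.real {u}) B M)^[L] (ind M) x) := by
  induction L with
  | zero =>
    intro A v x
    by_cases hx : |(x : ℝ)| < M
    · have he : {ω : ℤ → ℤ | (∀ a ∈ A, ω a = v a) ∧
          (∀ i : ℕ, i ≤ 0 → (stp d m r ω)^[i] x ∉ A) ∧ Long d m r M 0 x ω} = ∅ := by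
        ext ω
        simp only [Set.mem_ofPred_eq, Set.mem_empty_iff_false, iff_false]
        rintro ⟨-, -, hL, -⟩
        have := hL 0 le_rfl
        simp only [Function.iterate_zero, id_eq] at this
        exact absurd hx (not_lt.2 this)
      rw [he, measure_empty]
      exact zero_le
    · have hi : (Q d m r (fun u => μ.real {u}) B M)^[0] (ind M) x = 1 := by
        simp [ind, hx]
      rw [hi, ENNReal.ofReal_one, mul_one]
      have hsub : {ω : ℤ → ℤ | (∀ a ∈ A, ω a = v a) ∧
          (∀ i : ℕ, i ≤ 0 → (stp d m r ω)^[i] x ∉ A) ∧ Long d m r M 0 x ω} ⊆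
          Set.pi (A : Set ℤ) (fun a => {v a}) := by
        rintro ω ⟨h1, -, -⟩ a ha
        exact h1 a ha
      refine (measure_mono hsub).trans (le_of_eq ?_)
      rw [Measure.infinitePi_pi]
      intro i _
      exact measurableSet_singleton _
  | succ L ih =>
    intro A v x
    by_cases hx : |(x : ℝ)| < M
    · have he : {ω : ℤ → ℤ | (∀ a ∈ A, ω a = v a) ∧
          (∀ i : ℕ, i ≤ L + 1 → (stp d m r ω)^[i] x ∉ A) ∧ Long d m r M (L + 1) x ω} = ∅ := by
        ext ω
        simp only [Set.mem_ofPred_eq, Set.mem_empty_iff_false, iff_false]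
        rintro ⟨-, -, hL, -⟩
        have := hL 0 (Nat.zero_le _)
        simp only [Function.iterate_zero, id_eq] at this
        exact absurd hx (not_lt.2 this)
      rw [he, measure_empty]
      exact zero_le
    by_cases hxA : x ∈ A
    · have he : {ω : ℤ → ℤ | (∀ a ∈ A, ω a = v a) ∧
          (∀ i : ℕ, i ≤ L + 1 → (stp d m r ω)^[i] x ∉ A) ∧ Long d m r M (L + 1) x ω} = ∅ := by
        ext ω
        simp only [Set.mem_ofPred_eq, Set.mem_empty_iff_false, iff_false]
        rintro ⟨-, hA, -⟩
        exact hA 0 (Nat.zero_le _) hxA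
      rw [he, measure_empty]
      exact zero_le
    have hsub : {ω : ℤ → ℤ | (∀ a ∈ A, ω a = v a) ∧
          (∀ i : ℕ, i ≤ L + 1 → (stp d m r ω)^[i] x ∉ A) ∧ Long d m r M (L + 1) x ω} ⊆
        {ω | (B : ℤ) < |ω x|} ∪ ⋃ u ∈ Icc (-(B : ℤ)) B,
          {ω | (∀ a ∈ insert x A, ω a = Function.update v x u a) ∧
            (∀ i : ℕ, i ≤ L → (stp d m r ω)^[i] (T d m r x + u) ∉ insert x A) ∧
            Long d m r M L (T d m r x + u) ω} := by
      rintro ω ⟨h1, h2, h3, h4⟩
      by_cases hb : (B : ℤ) < |ω x|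
      · exact Or.inl hb
      right
      have hb' := abs_le.1 (not_lt.1 hb)
      simp only [Set.mem_iUnion]
      refine ⟨ω x, Finset.mem_Icc.2 ⟨hb'.1, hb'.2⟩, ?_, ?_, ?_, ?_⟩
      · intro a ha
        rcases Finset.mem_insert.1 ha with rfl | ha
        · rw [Function.update_self]
        · rw [Function.update_of_ne (ne_of_mem_of_not_mem ha hxA)]
          exact h1 a ha
      · intro i hi
        have hs : (stp d m r ω)^[i] (T d m r x + ω x) = (stp d m r ω)^[i + 1] x := by
          rw [Function.iterate_succ_apply]; rfl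
        rw [hs, Finset.mem_insert, not_or]
        refine ⟨fun h => h4 0 (i + 1) (Nat.succ_pos _) (by omega) ?_, h2 (i + 1) (by omega)⟩
        rw [h]; rfl
      · intro i hi
        have hs : (stp d m r ω)^[i] (T d m r x + ω x) = (stp d m r ω)^[i + 1] x := by
          rw [Function.iterate_succ_apply]; rfl
        rw [hs]
        exact h3 (i + 1) (by omega)
      · intro i j hij hj
        have hs : ∀ i : ℕ, (stp d m r ω)^[i] (T d m r x + ω x) = (stp d m r ω)^[i + 1] x := by
          intro i
          rw [Function.iterate_succ_apply]; rfl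
        rw [hs, hs]
        exact h4 (i + 1) (j + 1) (by omega) (by omega)
    refine (measure_mono hsub).trans ?_
    refine (measure_union_le _ _).trans ?_
    have h0 : (Measure.infinitePi fun _ : ℤ => μ) {ω : ℤ → ℤ | (B : ℤ) < |ω x|} = 0 := by
      have hp : {ω : ℤ → ℤ | (B : ℤ) < |ω x|} =
          Set.pi (({x} : Finset ℤ) : Set ℤ) (fun _ => {u : ℤ | (B : ℤ) < |u|}) := by
        ext ω
        simp
      rw [hp, Measure.infinitePi_pi]
      · simp [hB]
      · intro i _
        exact MeasurableSet.of_discrete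
    rw [h0, zero_add]
    refine (measure_biUnion_finset_le _ _).trans ?_
    refine (Finset.sum_le_sum fun u _ => ih (insert x A) (Function.update v x u) (T d m r x + u)).trans ?_
    have hQ : (Q d m r (fun u => μ.real {u}) B M)^[L + 1] (ind M) x =
        ∑ u ∈ Icc (-(B : ℤ)) B, μ.real {u} *
          (Q d m r (fun u => μ.real {u}) B M)^[L] (ind M) (T d m r x + u) := by
      rw [Function.iterate_succ_apply']
      conv_lhs => unfold Q
      rw [if_neg hx]
      rfl
    rw [hQ, ENNReal.ofReal_sum_of_nonneg, Finset.mul_sum]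
    · refine Finset.sum_le_sum fun u _ => le_of_eq ?_
      rw [Finset.prod_insert hxA, Function.update_self,
        ENNReal.ofReal_mul measureReal_nonneg, ofReal_measureReal]
      have hpr : ∏ a ∈ A, μ {Function.update v x u a} = ∏ a ∈ A, μ {v a} := by
        refine Finset.prod_congr rfl fun a ha => ?_
        rw [Function.update_of_ne (ne_of_mem_of_not_mem ha hxA)]
      rw [hpr]
      ring
    · intro u _
      exact mul_nonneg measureReal_nonneg
        (iter_nonneg d m r _ (fun _ => measureReal_nonneg) B M L _)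

/-- **PRB**: from the random environment to the annealed chain. -/
theorem t_PRB : S_PRB := by
  intro d m r μ hμ B hB M L x
  have h := main d m r μ B hB M L ∅ (fun _ => 0) x
  simpa using h

end Pool.Agent.U511.RP
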